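import Mathlib

/-!
The Lienard system x' = y - x^4, y' = -x has a global real-analytic first integral:
with v₁, v₂ entire solutions of v'' = 4 y v, A = v₁'(y) + 2 x² v₁(y), B = v₂'(y) + 2 x² v₂(y),
H = (A² - B²)/(A² + B²).
-/

namespace Pool.Agent.Results.MP_b09cb0_an.AiryIntegral

open Polynomial

noncomputable section

/-- coefficients of the solution `∑ a n z^(3n+p)` of `v'' = 4 z v`. -/
def a (p : ℕ) : ℕ → ℝ
  | 0 => 1
  | n + 1 => 4 * a p n / ((3 * n + 3 + p) * (3 * n + 2 + p))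

lemma a_nonneg (p n : ℕ) : 0 ≤ a p n := by
  induction n with
  | zero => simp [a]
  | succ n ih => simp only [a]; positivity

lemma a_le (p n : ℕ) : a p n ≤ 4 ^ n / n.factorial := by
  induction n with
  | zero => simp [a]
  | succ n ih =>
    have h0 := a_nonneg p n
    have hf : (0 : ℝ) < n.factorial := by exact_mod_cast n.factorial_pos
    have h1 : a p (n + 1) ≤ 4 * a p n / (n + 1) := by
      simp only [a]
      apply div_le_div_of_nonneg_left (by positivity) (by positivity)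
      have hn : (0 : ℝ) ≤ n := by positivity
      have hp : (0 : ℝ) ≤ p := by positivity
      nlinarith [mul_nonneg hn hn, mul_nonneg hn hp, mul_nonneg hp hp]
    refine h1.trans ?_
    have h2 : (4 : ℝ) ^ (n + 1) / (n + 1).factorial = 4 * (4 ^ n / n.factorial) / (n + 1) := by
      rw [Nat.factorial_succ, pow_succ]; push_cast; field_simp
    rw [h2]
    gcongr

/-- `V p z = ∑ a n z^(3n+p)`. -/
def V (p : ℕ) (z : ℂ) : ℂ := ∑' n, (a p n : ℂ) * z ^ (3 * n + p)

lemma summable_exp (C : ℝ) : Summable (fun n : ℕ => C ^ n / n.factorial) :=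
  Real.summable_pow_div_factorial C

lemma bound0 (p : ℕ) (R : ℝ) (_hR : 1 ≤ R) (n : ℕ) (z : ℂ) (hz : ‖z‖ ≤ R) :
    ‖(a p n : ℂ) * z ^ (3 * n + p)‖ ≤ R ^ p * ((4 * R ^ 3) ^ n / n.factorial) := by
  rw [norm_mul, norm_pow, Complex.norm_real, Real.norm_of_nonneg (a_nonneg p n)]
  calc a p n * ‖z‖ ^ (3 * n + p) ≤ (4 ^ n / n.factorial) * R ^ (3 * n + p) := by
        gcongr
        exact a_le p n
    _ = _ := by rw [mul_pow, pow_add, pow_mul]; ring

lemma bound1 (p : ℕ) (hp : p ≤ 1) (R : ℝ) (hR : 1 ≤ R) (n : ℕ) (z : ℂ) (hz : ‖z‖ ≤ R) :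
    ‖(a p n : ℂ) * (((3 * n + p : ℕ) : ℂ) * z ^ (3 * n + p - 1))‖
      ≤ R * ((16 * R ^ 3) ^ n / n.factorial) := by
  rw [norm_mul, norm_mul, norm_pow, Complex.norm_real, Real.norm_of_nonneg (a_nonneg p n),
    Complex.norm_natCast]
  have h4 : ((3 * n + p : ℕ) : ℝ) ≤ 4 ^ n := by
    have : ∀ m : ℕ, (3 * m + 1) ≤ 4 ^ m := by
      intro m
      induction m with
      | zero => simp
      | succ m ih => rw [pow_succ]; omega
    calc ((3 * n + p : ℕ) : ℝ) ≤ ((3 * n + 1 : ℕ) : ℝ) := by exact_mod_cast (by omega)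
      _ ≤ 4 ^ n := by exact_mod_cast this n
  have h5 : ‖z‖ ^ (3 * n + p - 1) ≤ R ^ (3 * n + 1) := by
    calc ‖z‖ ^ (3 * n + p - 1) ≤ R ^ (3 * n + p - 1) := by gcongr
      _ ≤ R ^ (3 * n + 1) := by
        apply pow_le_pow_right₀ hR; omega
  calc a p n * (((3 * n + p : ℕ) : ℝ) * ‖z‖ ^ (3 * n + p - 1))
      ≤ (4 ^ n / n.factorial) * (4 ^ n * R ^ (3 * n + 1)) := by
        gcongr
        exact a_le p n
    _ = _ := by
      have : (16 * R ^ 3) ^ n = 4 ^ n * 4 ^ n * (R ^ 3) ^ n := by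
        rw [mul_pow]; congr 1; rw [← mul_pow]; norm_num
      rw [this, pow_succ, pow_mul]; ring

lemma hasDerivAt_term (c : ℂ) (m : ℕ) (z : ℂ) :
    HasDerivAt (fun z : ℂ => c * z ^ m) (c * ((m : ℂ) * z ^ (m - 1))) z :=
  (hasDerivAt_pow m z).const_mul c

lemma differentiable_V (p : ℕ) : Differentiable ℂ (V p) := by
  intro z
  have hR : (1 : ℝ) ≤ ‖z‖ + 1 := by linarith [norm_nonneg z]
  have h := Complex.differentiableOn_tsum_of_summable_norm (U := Metric.ball (0 : ℂ) (‖z‖ + 1))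
    (F := fun n z => (a p n : ℂ) * z ^ (3 * n + p))
    (u := fun n => (‖z‖ + 1) ^ p * ((4 * (‖z‖ + 1) ^ 3) ^ n / n.factorial))
    ((summable_exp _).mul_left _)
    (fun n => (fun w _ => (hasDerivAt_term _ _ w).differentiableAt.differentiableWithinAt))
    Metric.isOpen_ball
    (fun n w hw => bound0 p _ hR n w (by
      have := Metric.mem_ball.mp hw
      rw [dist_zero_right] at this; exact this.le))
  exact (h.differentiableAt (Metric.isOpen_ball.mem_nhds (by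
    rw [Metric.mem_ball, dist_zero_right]; linarith)))

/-- derivative series -/
lemma deriv_V (p : ℕ) (z : ℂ) :
    HasSum (fun n => (a p n : ℂ) * (((3 * n + p : ℕ) : ℂ) * z ^ (3 * n + p - 1)))
      (deriv (V p) z) := by
  have hR : (1 : ℝ) ≤ ‖z‖ + 1 := by linarith [norm_nonneg z]
  have h := Complex.hasSum_deriv_of_summable_norm (U := Metric.ball (0 : ℂ) (‖z‖ + 1))
    (F := fun n z => (a p n : ℂ) * z ^ (3 * n + p)) (z := z)
    (u := fun n => (‖z‖ + 1) ^ p * ((4 * (‖z‖ + 1) ^ 3) ^ n / n.factorial))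
    ((summable_exp _).mul_left _)
    (fun n => (fun w _ => (hasDerivAt_term _ _ w).differentiableAt.differentiableWithinAt))
    Metric.isOpen_ball
    (fun n w hw => bound0 p _ hR n w (by
      have := Metric.mem_ball.mp hw
      rw [dist_zero_right] at this; exact this.le))
    (by rw [Metric.mem_ball, dist_zero_right]; linarith)
  have h2 : ∀ n, deriv (fun w => (a p n : ℂ) * w ^ (3 * n + p)) z =
      (a p n : ℂ) * (((3 * n + p : ℕ) : ℂ) * z ^ (3 * n + p - 1)) :=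
    fun n => (hasDerivAt_term _ _ z).deriv
  simp only [h2] at h
  exact h

/-- second derivative -/
lemma deriv2_V (p : ℕ) (hp : p ≤ 1) (z : ℂ) :
    deriv (deriv (V p)) z = 4 * z * V p z := by
  have hR : (1 : ℝ) ≤ ‖z‖ + 1 := by linarith [norm_nonneg z]
  have heq : deriv (V p) = fun w => ∑' n, (a p n : ℂ) * (((3 * n + p : ℕ) : ℂ) *
      w ^ (3 * n + p - 1)) := by
    funext w; exact (deriv_V p w).tsum_eq.symm
  have h := Complex.hasSum_deriv_of_summable_norm (U := Metric.ball (0 : ℂ) (‖z‖ + 1))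
    (F := fun n w => (a p n : ℂ) * (((3 * n + p : ℕ) : ℂ) * w ^ (3 * n + p - 1))) (z := z)
    (u := fun n => (‖z‖ + 1) * ((16 * (‖z‖ + 1) ^ 3) ^ n / n.factorial))
    ((summable_exp _).mul_left _)
    (fun n => (fun w _ => ((hasDerivAt_term _ _ w).const_mul
      _).differentiableAt.differentiableWithinAt))
    Metric.isOpen_ball
    (fun n w hw => bound1 p hp _ hR n w (by
      have := Metric.mem_ball.mp hw
      rw [dist_zero_right] at this; exact this.le))
    (by rw [Metric.mem_ball, dist_zero_right]; linarith)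
  have h2 : ∀ n, deriv (fun w => (a p n : ℂ) * (((3 * n + p : ℕ) : ℂ) * w ^ (3 * n + p - 1))) z =
      (a p n : ℂ) * (((3 * n + p : ℕ) : ℂ) * (((3 * n + p - 1 : ℕ) : ℂ) *
        z ^ (3 * n + p - 1 - 1))) :=
    fun n => ((hasDerivAt_term _ _ z).const_mul _).deriv
  simp only [h2] at h
  rw [← heq] at h
  rw [← h.tsum_eq]
  rw [h.summable.tsum_eq_zero_add]
  have h0 : (a p 0 : ℂ) * (((3 * 0 + p : ℕ) : ℂ) * (((3 * 0 + p - 1 : ℕ) : ℂ) *
        z ^ (3 * 0 + p - 1 - 1))) = 0 := by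
    interval_cases p <;> simp
  rw [h0, zero_add, V, ← tsum_mul_left]
  congr 1
  funext n
  have e1 : 3 * (n + 1) + p - 1 = 3 * n + 2 + p := by omega
  have e2 : 3 * (n + 1) + p - 1 - 1 = (3 * n + p) + 1 := by omega
  rw [e2, e1, pow_succ]
  have e3 : ((a p (n + 1) : ℝ) : ℂ) = 4 * (a p n : ℂ) / ((3 * n + 3 + p) * (3 * n + 2 + p)) := by
    simp only [a]; push_cast; rfl
  rw [e3]
  have e4 : ((3 : ℂ) * n + 3 + p) ≠ 0 := by
    have : ((3 * n + 3 + p : ℕ) : ℂ) ≠ 0 := by exact_mod_cast (by omega)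
    push_cast at this; exact this
  have e5 : ((3 : ℂ) * n + 2 + p) ≠ 0 := by
    have : ((3 * n + 2 + p : ℕ) : ℂ) ≠ 0 := by exact_mod_cast (by omega)
    push_cast at this; exact this
  have e6 : ((3 * (n + 1) + p : ℕ) : ℂ) = 3 * n + 3 + p := by push_cast; ring
  have e7 : ((3 * n + 2 + p : ℕ) : ℂ) = 3 * n + 2 + p := by push_cast; ring
  rw [e6, e7]
  have key : ∀ r s t u : ℂ, r ≠ 0 → s ≠ 0 →
      4 * t / (r * s) * (r * (s * (u * z))) = 4 * z * (t * u) := by
    intro r s t u hr hs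
    field_simp
  exact key _ _ _ _ e4 e5

/-- real versions -/
def v (p : ℕ) (y : ℝ) : ℝ := (V p y).re

def v' (p : ℕ) (y : ℝ) : ℝ := (deriv (V p) y).re

lemma analytic_re_comp {f : ℂ → ℂ} (hf : Differentiable ℂ f) (y : ℝ) :
    AnalyticAt ℝ (fun y : ℝ => (f y).re) y := by
  have h1 : AnalyticAt ℂ f (y : ℂ) := hf.analyticAt _
  have h2 : AnalyticAt ℝ f (y : ℂ) := h1.restrictScalars
  have h3 : AnalyticAt ℝ (fun t : ℝ => (t : ℂ)) y := Complex.ofRealCLM.analyticAt y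
  have h4 : AnalyticAt ℝ (fun t : ℝ => f t) y := h2.comp h3
  exact (Complex.reCLM.analyticAt _).comp h4

lemma differentiable_dV (p : ℕ) : Differentiable ℂ (deriv (V p)) := by
  intro z
  exact ((differentiable_V p).analyticAt z).deriv.differentiableAt

lemma hasDerivAt_v (p : ℕ) (y : ℝ) : HasDerivAt (v p) (v' p y) y :=
  ((differentiable_V p) (y : ℂ)).hasDerivAt.real_of_complex

lemma hasDerivAt_v' (p : ℕ) (hp : p ≤ 1) (y : ℝ) : HasDerivAt (v' p) (4 * y * v p y) y := by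
  have h := ((differentiable_dV p) (y : ℂ)).hasDerivAt.real_of_complex
  rw [deriv2_V p hp] at h
  refine h.congr_deriv ?_
  have : (4 * (y : ℂ) * V p y) = ((4 * y : ℝ) : ℂ) * V p y := by push_cast; ring
  rw [this, Complex.re_ofReal_mul, v]

lemma v_zero0 : v 0 0 = 1 := by
  rw [v, V, tsum_eq_single 0]
  · simp [a]
  · intro n hn; simp; right; omega

lemma v_zero1 : v 1 0 = 0 := by
  rw [v, V, tsum_eq_single 0]
  · simp [a]
  · intro n hn; simp

lemma v'_zero0 : v' 0 0 = 0 := by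
  have h := (deriv_V 0 ((0 : ℝ) : ℂ)).tsum_eq
  rw [v', ← h, tsum_eq_single 0]
  · simp [a]
  · intro n hn
    have : 3 * n - 1 ≠ 0 := by omega
    simp [this]

lemma v'_zero1 : v' 1 0 = 1 := by
  have h := (deriv_V 1 ((0 : ℝ) : ℂ)).tsum_eq
  rw [v', ← h, tsum_eq_single 0]
  · simp [a]
  · intro n hn
    simp [hn]

lemma wronskian (y : ℝ) : v 0 y * v' 1 y - v' 0 y * v 1 y = 1 := by
  have hd : ∀ y, HasDerivAt (fun y => v 0 y * v' 1 y - v' 0 y * v 1 y) 0 y := by
    intro y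
    refine (((hasDerivAt_v 0 y).mul (hasDerivAt_v' 1 le_rfl y)).sub
      ((hasDerivAt_v' 0 (by norm_num) y).mul (hasDerivAt_v 1 y))).congr_deriv ?_
    ring
  have hc := is_const_of_deriv_eq_zero (fun y => (hd y).differentiableAt)
    (fun y => (hd y).deriv) y 0
  rw [hc, v_zero0, v_zero1, v'_zero0, v'_zero1]; ring

def A (p : ℕ) (q : ℝ × ℝ) : ℝ := v' p q.2 + 2 * q.1 ^ 2 * v p q.2

lemma sq_pos (q : ℝ × ℝ) : 0 < A 0 q ^ 2 + A 1 q ^ 2 := by
  by_contra hcon
  have h0 : A 0 q = 0 := by nlinarith [sq_nonneg (A 0 q), sq_nonneg (A 1 q)]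
  have h1 : A 1 q = 0 := by nlinarith [sq_nonneg (A 0 q), sq_nonneg (A 1 q)]
  have hw := wronskian q.2
  simp only [A] at h0 h1
  have : v 0 q.2 * v' 1 q.2 - v' 0 q.2 * v 1 q.2 = 0 := by
    linear_combination (v 0 q.2) * h1 - (v 1 q.2) * h0
  linarith

lemma analyticAt_A (p : ℕ) (q : ℝ × ℝ) : AnalyticAt ℝ (A p) q := by
  have h1 : AnalyticAt ℝ (fun q : ℝ × ℝ => v p q.2) q :=
    AnalyticAt.fun_comp (g := v p) (f := fun q : ℝ × ℝ => q.2)
      (analytic_re_comp (differentiable_V p) q.2) analyticAt_snd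
  have h2 : AnalyticAt ℝ (fun q : ℝ × ℝ => v' p q.2) q :=
    AnalyticAt.fun_comp (g := v' p) (f := fun q : ℝ × ℝ => q.2)
      (analytic_re_comp (differentiable_dV p) q.2) analyticAt_snd
  exact h2.add ((analyticAt_const.mul (analyticAt_fst.pow 2)).mul h1)

def H (q : ℝ × ℝ) : ℝ := (A 0 q ^ 2 - A 1 q ^ 2) / (A 0 q ^ 2 + A 1 q ^ 2)

lemma hasDerivAt_A_x (p : ℕ) (x y : ℝ) :
    HasDerivAt (fun t => A p (t, y)) (4 * x * v p y) x := by
  simp only [A]
  refine ((((hasDerivAt_pow 2 x).const_mul 2).mul_const (v p y)).const_add (v' p y)).congr_deriv ?_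
  rw [show (2 : ℕ) - 1 = 1 from rfl]
  push_cast
  ring

lemma hasDerivAt_A_y (p : ℕ) (hp : p ≤ 1) (x y : ℝ) :
    HasDerivAt (fun t => A p (x, t)) (4 * y * v p y + 2 * x ^ 2 * v' p y) y := by
  simp only [A]
  exact (hasDerivAt_v' p hp y).add ((hasDerivAt_v p y).const_mul (2 * x ^ 2))

lemma hasDerivAt_quot {f g : ℝ → ℝ} {f' g' t : ℝ} (hf : HasDerivAt f f' t)
    (hg : HasDerivAt g g' t) (hpos : 0 < f t ^ 2 + g t ^ 2) :
    HasDerivAt (fun t => (f t ^ 2 - g t ^ 2) / (f t ^ 2 + g t ^ 2))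
      (4 * f t * g t * (f' * g t - f t * g') / (f t ^ 2 + g t ^ 2) ^ 2) t := by
  refine (((hf.fun_pow 2).fun_sub (hg.fun_pow 2)).fun_div
    ((hf.fun_pow 2).fun_add (hg.fun_pow 2)) hpos.ne').congr_deriv ?_
  congr 1
  simp; ring

/-- The negated form of Q1. -/
theorem result : ∃ E : ℝ[X], (∀ x : ℝ, E.eval (-x) = E.eval x) ∧ 4 ≤ E.natDegree ∧
    ∃ H : ℝ × ℝ → ℝ, AnalyticOnNhd ℝ H Set.univ ∧ (∃ p q, H p ≠ H q) ∧
      ∀ x y : ℝ, (y - E.eval x) * deriv (fun t => H (t, y)) x -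
        x * deriv (fun t => H (x, t)) y = 0 := by
  refine ⟨X ^ 4, fun x => by simp [Even.neg_pow (by decide : Even 4)], by simp, H, ?_,
    ⟨(0, 0), (1, 0), ?_⟩, ?_⟩
  · intro q _
    exact (((analyticAt_A 0 q).pow 2).sub ((analyticAt_A 1 q).pow 2)).div
      (((analyticAt_A 0 q).pow 2).add ((analyticAt_A 1 q).pow 2)) (sq_pos q).ne'
  · simp only [H, A, v_zero0, v_zero1, v'_zero0, v'_zero1]; norm_num
  · intro x y
    have hx := hasDerivAt_quot (hasDerivAt_A_x 0 x y) (hasDerivAt_A_x 1 x y) (sq_pos (x, y))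
    have hy := hasDerivAt_quot (hasDerivAt_A_y 0 (by norm_num) x y)
      (hasDerivAt_A_y 1 le_rfl x y) (sq_pos (x, y))
    have hx' : deriv (fun t => H (t, y)) x = _ := hx.deriv
    have hy' : deriv (fun t => H (x, t)) y = _ := hy.deriv
    rw [hx', hy']
    have hpos := sq_pos (x, y)
    simp only [eval_pow, eval_X]
    have key : (y - x ^ 4) * (4 * x * v 0 y * A 1 (x, y) - A 0 (x, y) * (4 * x * v 1 y)) -
        x * ((4 * y * v 0 y + 2 * x ^ 2 * v' 0 y) * A 1 (x, y) -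
          A 0 (x, y) * (4 * y * v 1 y + 2 * x ^ 2 * v' 1 y)) = 0 := by
      simp only [A]; ring
    rw [← mul_div_assoc, ← mul_div_assoc, ← sub_div, div_eq_zero_iff]
    left
    linear_combination (4 * A 0 (x, y) * A 1 (x, y)) * key

end

end Pool.Agent.Results.MP_b09cb0_an.AiryIntegral
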